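import Mathlib

set_option autoImplicit false

namespace Pool.Agent.Results.MP_3a21c3_co.NoCuts

open Set Relation

/-- Euclidean three-space. -/
abbrev E3 := EuclideanSpace ℝ (Fin 3)

/-- A convex polyhedron: the convex hull of finitely many points, with nonempty interior. -/
def IsPolyhedron (P : Set E3) : Prop :=
  (∃ S : Finset E3, P = convexHull ℝ (S : Set E3)) ∧ (interior P).Nonempty

/-- `F` is a (two-dimensional) face of `P`. -/
def IsFacet (P F : Set E3) : Prop :=
  IsExposed ℝ P F ∧ Module.finrank ℝ (vectorSpan ℝ F) = 2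

/-- The segment from `v` to `w` is an edge of the convex polygon (or polyhedron) `X`. -/
def IsEdge (X : Set E3) (v w : E3) : Prop :=
  v ≠ w ∧ v ∈ X.extremePoints ℝ ∧ w ∈ X.extremePoints ℝ ∧ IsExposed ℝ X (segment ℝ v w)

/-- A pyramid: the convex hull of a convex polygon (the hull of a finite set `B` which spans a
plane) and of a point `a` not in the plane of the polygon. -/
def IsPyramid (Q : Set E3) : Prop :=
  ∃ (B : Finset E3) (a : E3), Module.finrank ℝ (vectorSpan ℝ (B : Set E3)) = 2 ∧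
    a ∉ affineSpan ℝ (B : Set E3) ∧ Q = convexHull ℝ (insert a (B : Set E3))

/-- `D` is a g-dome with base `X`: every face other than `X` has a vertex in common with `X`. -/
def IsGDome (D X : Set E3) : Prop :=
  IsPolyhedron D ∧ IsFacet D X ∧
    ∀ F, IsFacet D F → F ≠ X → ∃ v ∈ F ∩ X, v ∈ D.extremePoints ℝ

/-- `D` is a dome with base `X`: every face other than `X` has more than one point in common with
`X` (so that the two faces have an edge in common). -/
def IsDome (D X : Set E3) : Prop :=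
  IsPolyhedron D ∧ IsFacet D X ∧ ∀ F, IsFacet D F → F ≠ X → (F ∩ X).Nontrivial

/-- An admissible cut, leading from `P` to `P'`: a plane `f = c` contains an edge of `X`, the
polyhedron `D` lies on one side `f ≤ c` of it (so the plane does not meet the interior of `D`), the
closed part of `P` on the other side is a pyramid, and this pyramid is removed. -/
def IsCut (X D P P' : Set E3) : Prop :=
  ∃ (f : E3 →L[ℝ] ℝ) (c : ℝ), f ≠ 0 ∧ (∃ v w, IsEdge X v w ∧ f v = c ∧ f w = c) ∧
    (∀ x ∈ D, f x ≤ c) ∧ IsPyramid {x ∈ P | c ≤ f x} ∧ P' = closure (P \ {x ∈ P | c ≤ f x})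

/-! ### coordinates -/

/-- a vector with given coordinates -/
noncomputable def V (x y z : ℝ) : E3 := !₂[x, y, z]

@[simp] theorem V0 (x y z : ℝ) : V x y z 0 = x := by simp [V]
@[simp] theorem V1 (x y z : ℝ) : V x y z 1 = y := by simp [V]
@[simp] theorem V2 (x y z : ℝ) : V x y z 2 = z := by simp [V]

theorem ext3 {x y : E3} (h0 : x 0 = y 0) (h1 : x 1 = y 1) (h2 : x 2 = y 2) : x = y := by
  ext i; fin_cases i
  · exact h0
  · exact h1
  · exact h2

theorem eq_V (x : E3) : x = V (x 0) (x 1) (x 2) := ext3 (by simp) (by simp) (by simp)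

theorem V_comb (x : E3) : x = x 0 • V 1 0 0 + x 1 • V 0 1 0 + x 2 • V 0 0 1 := by
  apply ext3 <;> simp

theorem f_V (f : E3 →L[ℝ] ℝ) (x y z : ℝ) :
    f (V x y z) = x * f (V 1 0 0) + y * f (V 0 1 0) + z * f (V 0 0 1) := by
  conv_lhs => rw [V_comb (V x y z)]
  simp

/-- a subspace containing the three unit vectors is everything -/
theorem top_of_units (W : Submodule ℝ E3) (h0 : V 1 0 0 ∈ W) (h1 : V 0 1 0 ∈ W)
    (h2 : V 0 0 1 ∈ W) : W = ⊤ := by
  rw [eq_top_iff]
  intro x _
  rw [V_comb x]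
  exact W.add_mem (W.add_mem (W.smul_mem _ h0) (W.smul_mem _ h1)) (W.smul_mem _ h2)

/-- nonempty interior -/
theorem interior_nonempty (S : Set E3) (v : E3) (h0 : V 0 0 0 ∈ S) (h1 : V 1 0 0 ∈ S)
    (h2 : V 0 1 0 ∈ S) (hv : v ∈ S) (hv2 : v 2 ≠ 0) : (interior (convexHull ℝ S)).Nonempty := by
  rw [interior_convexHull_nonempty_iff_affineSpan_eq_top]
  have hd : vectorSpan ℝ S = ⊤ := by
    have a0 : V 1 0 0 ∈ vectorSpan ℝ S := by
      have := vsub_mem_vectorSpan ℝ h1 h0
      have e : V 1 0 0 -ᵥ V 0 0 0 = V 1 0 0 := by apply ext3 <;> simp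
      rwa [e] at this
    have a1 : V 0 1 0 ∈ vectorSpan ℝ S := by
      have := vsub_mem_vectorSpan ℝ h2 h0
      have e : V 0 1 0 -ᵥ V 0 0 0 = V 0 1 0 := by apply ext3 <;> simp
      rwa [e] at this
    have av : v ∈ vectorSpan ℝ S := by
      have := vsub_mem_vectorSpan ℝ hv h0
      have e : v -ᵥ V 0 0 0 = v := by apply ext3 <;> simp
      rwa [e] at this
    apply top_of_units _ a0 a1
    have e : V 0 0 1 = (v 2)⁻¹ • (v - v 0 • V 1 0 0 - v 1 • V 0 1 0) := by
      apply ext3 <;> simp [hv2]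
    rw [e]
    exact Submodule.smul_mem _ _ (Submodule.sub_mem _ (Submodule.sub_mem _ av
      (Submodule.smul_mem _ _ a0)) (Submodule.smul_mem _ _ a1))
  rw [AffineSubspace.affineSpan_eq_top_iff_vectorSpan_eq_top_of_nonempty ℝ E3 E3 ⟨_, h0⟩]
  exact hd

/-- the third coordinate as a continuous linear map -/
noncomputable def π2 : E3 →L[ℝ] ℝ := EuclideanSpace.proj 2

theorem π2_apply (x : E3) : π2 x = x 2 := rfl

theorem finrank_ker (f : E3 →L[ℝ] ℝ) (hf : f ≠ 0) :
    Module.finrank ℝ (LinearMap.ker (f : E3 →ₗ[ℝ] ℝ)) = 2 := by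
  have h1 := LinearMap.finrank_range_add_finrank_ker (f : E3 →ₗ[ℝ] ℝ)
  have h2 : LinearMap.range (f : E3 →ₗ[ℝ] ℝ) = ⊤ := by
    apply LinearMap.range_eq_top.2
    apply LinearMap.surjective
    intro h
    apply hf
    ext x
    exact congrArg (fun g : E3 →ₗ[ℝ] ℝ => g x) h
  rw [h2, finrank_top] at h1
  simp at h1
  omega

/-- the span of a set in the plane `z = 0` containing the origin and two unit vectors -/
theorem finrank_base (X : Set E3) (h0 : V 0 0 0 ∈ X) (h1 : V 1 0 0 ∈ X) (h2 : V 0 1 0 ∈ X)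
    (hX : ∀ x ∈ X, x 2 = 0) : Module.finrank ℝ (vectorSpan ℝ X) = 2 := by
  have e : vectorSpan ℝ X = LinearMap.ker (π2 : E3 →ₗ[ℝ] ℝ) := by
    apply le_antisymm
    · rw [vectorSpan_def, Submodule.span_le]
      rintro _ ⟨x, hx, y, hy, rfl⟩
      simp only [SetLike.mem_coe, LinearMap.mem_ker]
      change π2 (x - y) = 0
      rw [π2_apply]
      simp [hX x hx, hX y hy]
    · intro w hw
      have hw2 : w 2 = 0 := hw
      have a0 : V 1 0 0 ∈ vectorSpan ℝ X := by
        have := vsub_mem_vectorSpan ℝ h1 h0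
        have e : V 1 0 0 -ᵥ V 0 0 0 = V 1 0 0 := by apply ext3 <;> simp
        rwa [e] at this
      have a1 : V 0 1 0 ∈ vectorSpan ℝ X := by
        have := vsub_mem_vectorSpan ℝ h2 h0
        have e : V 0 1 0 -ᵥ V 0 0 0 = V 0 1 0 := by apply ext3 <;> simp
        rwa [e] at this
      rw [V_comb w, hw2, zero_smul, add_zero]
      exact Submodule.add_mem _ (Submodule.smul_mem _ _ a0) (Submodule.smul_mem _ _ a1)
  rw [e]
  apply finrank_ker
  intro h
  have := congrArg (fun g : E3 →L[ℝ] ℝ => g (V 0 0 1)) h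
  simp [π2_apply] at this

/-! ### faces -/

theorem face_subset (S : Finset E3) (F : Set E3) (hF : IsExposed ℝ (convexHull ℝ (S : Set E3)) F) :
    F ⊆ convexHull ℝ {y | y ∈ S ∧ y ∈ F} := by
  intro x hx
  obtain ⟨l, hl⟩ := hF ⟨x, hx⟩
  have hx' := hx
  rw [hl] at hx'
  obtain ⟨hxS, hmax⟩ := hx'
  rw [Finset.mem_convexHull'] at hxS
  obtain ⟨w, hw0, hw1, hwx⟩ := hxS
  have hlx : l x = ∑ y ∈ S, w y * l y := by
    rw [← hwx, map_sum]
    apply Finset.sum_congr rfl
    intro y _
    rw [map_smul, smul_eq_mul]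
  have hle : ∀ y ∈ S, l y ≤ l x := fun y hy => hmax y (subset_convexHull ℝ _ hy)
  have hz : ∑ y ∈ S, w y * (l x - l y) = 0 := by
    have : ∀ y ∈ S, w y * (l x - l y) = w y * l x - w y * l y := fun y _ => by ring
    rw [Finset.sum_congr rfl this, Finset.sum_sub_distrib, ← Finset.sum_mul, hw1, ← hlx]
    ring
  have hz' := (Finset.sum_eq_zero_iff_of_nonneg (fun y hy =>
    mul_nonneg (hw0 y hy) (sub_nonneg.2 (hle y hy)))).1 hz
  have hmem : ∀ y ∈ S, w y ≠ 0 → y ∈ F := by
    intro y hy hwy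
    have h1 := (mul_eq_zero.1 (hz' y hy)).resolve_left hwy
    rw [hl]
    refine ⟨subset_convexHull ℝ _ hy, fun z hz => ?_⟩
    have := hmax z hz
    linarith
  have hsum : ∑ y ∈ S.filter (fun y => w y ≠ 0), w y • y = x := by
    rw [Finset.sum_filter, ← hwx]
    apply Finset.sum_congr rfl
    intro y _
    split_ifs with h
    · rfl
    · push Not at h
      rw [h, zero_smul]
  rw [← hsum]
  apply (convex_convexHull ℝ _).sum_mem
  · intro y hy
    exact hw0 y (Finset.mem_filter.1 hy).1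
  · rw [Finset.sum_filter, ← hw1]
    apply Finset.sum_congr rfl
    intro y _
    split_ifs with h
    · rfl
    · push Not at h
      exact h.symm
  · intro y hy
    rw [Finset.mem_filter] at hy
    exact subset_convexHull ℝ _ ⟨hy.1, hmem y hy.1 hy.2⟩

theorem vectorSpan_le_of_subset_hull {F T : Set E3} (h : F ⊆ convexHull ℝ T) :
    vectorSpan ℝ F ≤ vectorSpan ℝ T := by
  have h1 := vectorSpan_mono ℝ h
  rwa [← direction_affineSpan, ← direction_affineSpan, affineSpan_convexHull,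
    direction_affineSpan, direction_affineSpan] at h1

/-- a facet is not contained in the hull of two points -/
theorem not_two {F T : Set E3} {p q : E3} (hF : Module.finrank ℝ (vectorSpan ℝ F) = 2)
    (hT : T ⊆ {p, q}) (h : F ⊆ convexHull ℝ T) : False := by
  have h1 := vectorSpan_le_of_subset_hull (h.trans (convexHull_mono hT))
  have h2 := Submodule.finrank_mono h1
  have h3 : Module.finrank ℝ (vectorSpan ℝ ({p, q} : Set E3)) ≤ 1 :=
    collinear_iff_finrank_le_one.1 (collinear_pair ℝ p q)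
  omega

/-- the base is a facet -/
theorem base_facet (K X : Set E3) (hXK : X ⊆ K) (hK : ∀ x ∈ K, 0 ≤ x 2)
    (hbase : ∀ x ∈ K, x 2 = 0 → x ∈ X) (hX : ∀ x ∈ X, x 2 = 0)
    (h0 : V 0 0 0 ∈ X) (h1 : V 1 0 0 ∈ X) (h2 : V 0 1 0 ∈ X) : IsFacet K X := by
  refine ⟨fun _ => ⟨-π2, ?_⟩, finrank_base X h0 h1 h2 hX⟩
  ext x
  constructor
  · intro hx
    refine ⟨hXK hx, fun y hy => ?_⟩
    have := hK y hy
    simp only [neg_apply, π2_apply, hX x hx]
    linarith
  · rintro ⟨hx, hmax⟩
    apply hbase x hx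
    have h3 := hmax _ (hXK h0)
    simp only [neg_apply, π2_apply, V2] at h3
    have := hK x hx
    linarith

/-- an extreme point common to two facets with a common point -/
theorem common_vertex {D F X : Set E3} (hD : IsPolyhedron D) (hF : IsFacet D F)
    (hX : IsFacet D X) (h : (F ∩ X).Nonempty) : ∃ v ∈ F ∩ X, v ∈ D.extremePoints ℝ := by
  have hcomp : IsCompact D := by
    obtain ⟨⟨S, rfl⟩, -⟩ := hD
    exact (Finset.finite_toSet S).isCompact_convexHull ℝ
  have hexp : IsExposed ℝ D (F ∩ X) := hF.1.inter hX.1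
  have hc : IsCompact (F ∩ X) := hexp.isCompact hcomp
  obtain ⟨v, hv⟩ := hc.extremePoints_nonempty h
  exact ⟨v, hv.1, hexp.isExtreme.extremePoints_subset_extremePoints hv⟩

/-! ### pyramids -/

theorem pyramid_not_flat {Q : Set E3} (hQ : IsPyramid Q) (f : E3 →L[ℝ] ℝ) (hf : f ≠ 0) (c : ℝ)
    (h : ∀ x ∈ Q, f x = c) : False := by
  obtain ⟨B, a, hB, ha, rfl⟩ := hQ
  have hBne : (B : Set E3).Nonempty := by
    rw [nonempty_iff_ne_empty]
    intro h0
    rw [h0, vectorSpan_empty, finrank_bot] at hB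
    omega
  obtain ⟨b, hb⟩ := hBne
  have hfB : ∀ x ∈ (B : Set E3), f x = c := fun x hx =>
    h x (subset_convexHull ℝ _ (mem_insert_of_mem _ hx))
  have hfa : f a = c := h a (subset_convexHull ℝ _ (mem_insert _ _))
  have hle : vectorSpan ℝ (B : Set E3) ≤ LinearMap.ker (f : E3 →ₗ[ℝ] ℝ) := by
    rw [vectorSpan_def, Submodule.span_le]
    rintro _ ⟨x, hx, y, hy, rfl⟩
    simp only [SetLike.mem_coe, LinearMap.mem_ker]
    change f (x - y) = 0
    rw [map_sub, hfB x hx, hfB y hy, sub_self]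
  have heq := Submodule.eq_of_le_of_finrank_eq hle (by rw [hB, finrank_ker f hf])
  apply ha
  have h1 : a -ᵥ b ∈ vectorSpan ℝ (B : Set E3) := by
    rw [heq, LinearMap.mem_ker]
    change f (a - b) = 0
    rw [map_sub, hfa, hfB b hb, sub_self]
  rw [← direction_affineSpan] at h1
  have h2 := AffineSubspace.vadd_mem_of_mem_direction h1 (mem_affineSpan ℝ hb)
  simpa using h2

/-! ### the cube -/

/-- the unit box -/
def box : Set E3 := {x | (0 ≤ x 0 ∧ x 0 ≤ 1) ∧ (0 ≤ x 1 ∧ x 1 ≤ 1) ∧ (0 ≤ x 2 ∧ x 2 ≤ 1)}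

theorem box_convex : Convex ℝ box := by
  rintro x ⟨⟨x1, x2⟩, ⟨x3, x4⟩, ⟨x5, x6⟩⟩ y ⟨⟨y1, y2⟩, ⟨y3, y4⟩, ⟨y5, y6⟩⟩ a b ha hb hab
  have hb' : b = 1 - a := by linarith
  subst hb'
  refine ⟨⟨?_, ?_⟩, ⟨?_, ?_⟩, ⟨?_, ?_⟩⟩ <;>
    simp only [PiLp.add_apply, PiLp.smul_apply, smul_eq_mul] <;> nlinarith

theorem corner_extreme {Q : Set E3} (hQ : Q ⊆ box) {k : E3} (hk : k ∈ Q)
    (hc : ∀ i, k i = 0 ∨ k i = 1) : k ∈ Q.extremePoints ℝ := by
  rw [mem_extremePoints]
  refine ⟨hk, ?_⟩
  rintro x hx y hy ⟨a, b, ha, hb, hab, rfl⟩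
  obtain ⟨⟨x1, x2⟩, ⟨x3, x4⟩, ⟨x5, x6⟩⟩ := hQ hx
  obtain ⟨⟨y1, y2⟩, ⟨y3, y4⟩, ⟨y5, y6⟩⟩ := hQ hy
  have key : ∀ u v : ℝ, 0 ≤ u → u ≤ 1 → 0 ≤ v → v ≤ 1 → (a * u + b * v = 0 ∨ a * u + b * v = 1) →
      u = v := by
    intro u v hu hu1 hv hv1 h
    have hb' : b = 1 - a := by linarith
    subst hb'
    rcases h with h | h
    · have h1 : a * u = 0 := by nlinarith [mul_nonneg ha.le hu, mul_nonneg hb.le hv]
      have h2 : (1 - a) * v = 0 := by linarith
      rw [(mul_eq_zero.1 h1).resolve_left ha.ne', (mul_eq_zero.1 h2).resolve_left hb.ne']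
    · have h1 : a * (1 - u) = 0 := by
        nlinarith [mul_nonneg ha.le (sub_nonneg.2 hu1), mul_nonneg hb.le (sub_nonneg.2 hv1)]
      have h2 : (1 - a) * (1 - v) = 0 := by linarith
      have h3 := (mul_eq_zero.1 h1).resolve_left ha.ne'
      have h4 := (mul_eq_zero.1 h2).resolve_left hb.ne'
      linarith
  have hxy : x = y := by
    apply ext3
    · exact key _ _ x1 x2 y1 y2 (by simpa using hc 0)
    · exact key _ _ x3 x4 y3 y4 (by simpa using hc 1)
    · exact key _ _ x5 x6 y5 y6 (by simpa using hc 2)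
  subst hxy
  have : a • x + b • x = x := by rw [← add_smul, hab, one_smul]
  rw [this]
  exact ⟨rfl, rfl⟩

/-- the corners of the bottom square -/
noncomputable def S4 : Finset E3 := by
  classical exact {V 0 0 0, V 1 0 0, V 0 1 0, V 1 1 0}

/-- the corners of the cube -/
noncomputable def S8 : Finset E3 := by
  classical exact {V 0 0 0, V 1 0 0, V 0 1 0, V 1 1 0, V 0 0 1, V 1 0 1, V 0 1 1, V 1 1 1}

/-- the corners of the bottom square and one more corner -/
noncomputable def S5 : Finset E3 := by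
  classical exact {V 0 0 0, V 1 0 0, V 0 1 0, V 1 1 0, V 1 1 1}

/-- The unit cube. -/
noncomputable def cube : Set E3 := convexHull ℝ (S8 : Set E3)

/-- The bottom face of the unit cube. -/
noncomputable def square : Set E3 := convexHull ℝ (S4 : Set E3)

/-- The pyramid over the bottom face of the unit cube with apex `(1,1,1)`. -/
noncomputable def pyramid : Set E3 := convexHull ℝ (S5 : Set E3)

theorem mem_S4 (x : E3) : x ∈ (S4 : Set E3) ↔
    x = V 0 0 0 ∨ x = V 1 0 0 ∨ x = V 0 1 0 ∨ x = V 1 1 0 := by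
  simp [S4]

theorem mem_S5 (x : E3) : x ∈ (S5 : Set E3) ↔
    x = V 0 0 0 ∨ x = V 1 0 0 ∨ x = V 0 1 0 ∨ x = V 1 1 0 ∨ x = V 1 1 1 := by
  simp [S5]

theorem mem_S8 (x : E3) : x ∈ (S8 : Set E3) ↔
    x = V 0 0 0 ∨ x = V 1 0 0 ∨ x = V 0 1 0 ∨ x = V 1 1 0 ∨ x = V 0 0 1 ∨ x = V 1 0 1 ∨
      x = V 0 1 1 ∨ x = V 1 1 1 := by
  simp [S8]

theorem S4_sub_S5 : (S4 : Set E3) ⊆ S5 := by
  intro x hx
  rw [mem_S4] at hx
  rw [mem_S5]
  tauto

theorem S5_sub_S8 : (S5 : Set E3) ⊆ S8 := by
  intro x hx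
  rw [mem_S5] at hx
  rw [mem_S8]
  tauto

theorem cube_sub_box : cube ⊆ box := by
  refine convexHull_min ?_ box_convex
  intro x hx
  rw [mem_S8] at hx
  rcases hx with rfl | rfl | rfl | rfl | rfl | rfl | rfl | rfl <;>
    simp [box]

theorem square_z (x : E3) (hx : x ∈ square) : x 2 = 0 := by
  have hconv : Convex ℝ {x : E3 | x 2 = 0} := by
    intro x hx y hy a b _ _ _
    have hx' : x 2 = 0 := hx
    have hy' : y 2 = 0 := hy
    change (a • x + b • y) 2 = 0
    simp [hx', hy']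
  have : square ⊆ {x : E3 | x 2 = 0} := by
    refine convexHull_min ?_ hconv
    intro y hy
    rw [mem_S4] at hy
    rcases hy with rfl | rfl | rfl | rfl <;> simp
  exact this hx

theorem square_of_box (x : E3) (hx : x ∈ box) (hz : x 2 = 0) : x ∈ square := by
  obtain ⟨⟨x1, x2⟩, ⟨x3, x4⟩, -⟩ := hx
  have h : ∀ y ∈ (S4 : Set E3), y ∈ square := fun y hy => subset_convexHull ℝ _ hy
  have e : x = (1 - x 0) • ((1 - x 1) • V 0 0 0 + x 1 • V 0 1 0) +
      x 0 • ((1 - x 1) • V 1 0 0 + x 1 • V 1 1 0) := by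
    apply ext3 <;> simp [hz]
    all_goals ring
  rw [e]
  have hc : Convex ℝ square := convex_convexHull ℝ _
  refine hc (hc (h _ ?_) (h _ ?_) (by linarith) x3 (by ring))
    (hc (h _ ?_) (h _ ?_) (by linarith) x3 (by ring)) (by linarith) x1 (by ring)
  all_goals rw [mem_S4]; tauto

theorem pyramid_sub_cube : pyramid ⊆ cube := convexHull_mono S5_sub_S8
theorem square_sub_pyramid : square ⊆ pyramid := convexHull_mono S4_sub_S5

theorem cube_poly : IsPolyhedron cube := by
  refine ⟨⟨S8, rfl⟩, interior_nonempty _ (V 0 0 1) ?_ ?_ ?_ ?_ (by simp)⟩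
  all_goals rw [mem_S8]; tauto

theorem pyramid_poly : IsPolyhedron pyramid := by
  refine ⟨⟨S5, rfl⟩, interior_nonempty _ (V 1 1 1) ?_ ?_ ?_ ?_ (by simp)⟩
  all_goals rw [mem_S5]; tauto

theorem facet_of_between (K : Set E3) (h1 : square ⊆ K) (h2 : K ⊆ box) : IsFacet K square := by
  refine base_facet K square h1 (fun x hx => (h2 hx).2.2.1) (fun x hx hz =>
    square_of_box x (h2 hx) hz) square_z ?_ ?_ ?_
  all_goals
    apply subset_convexHull
    rw [mem_S4]
    tauto

theorem pyramid_dome : IsDome pyramid square := by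
  refine ⟨pyramid_poly, facet_of_between _ square_sub_pyramid (pyramid_sub_cube.trans cube_sub_box),
    ?_⟩
  intro F hF _
  have hsub := face_subset S5 F hF.1
  -- the corners of the square in F
  by_contra hcon
  rw [Set.not_nontrivial_iff] at hcon
  have hsq : ∀ y ∈ (S4 : Set E3), y ∈ square := fun y hy => subset_convexHull ℝ _ hy
  have hT : ∃ q, {y | y ∈ S5 ∧ y ∈ F} ⊆ {V 1 1 1, q} := by
    by_cases hex : ∃ q ∈ (S4 : Set E3), q ∈ F
    · obtain ⟨q, hq, hqF⟩ := hex
      refine ⟨q, ?_⟩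
      rintro y ⟨hy, hyF⟩
      have hy' : y ∈ (S5 : Set E3) := hy
      rw [mem_S5] at hy'
      by_cases h1 : y = V 1 1 1
      · left; exact h1
      · right
        have h4 : y ∈ (S4 : Set E3) := by rw [mem_S4]; tauto
        exact hcon ⟨hyF, hsq y h4⟩ ⟨hqF, hsq q hq⟩
    · push Not at hex
      refine ⟨V 1 1 1, ?_⟩
      rintro y ⟨hy, hyF⟩
      have hy' : y ∈ (S5 : Set E3) := hy
      rw [mem_S5] at hy'
      by_cases h1 : y = V 1 1 1
      · left; exact h1
      · exfalso
        exact hex y (by rw [mem_S4]; tauto) hyF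
  obtain ⟨q, hq⟩ := hT
  exact not_two hF.2 hq hsub

theorem pyramid_gdome : IsGDome pyramid square := by
  obtain ⟨h1, h2, h3⟩ := pyramid_dome
  exact ⟨h1, h2, fun F hF hne => common_vertex h1 hF h2 (h3 F hF hne).nonempty⟩

/-- the part of the cube beyond a plane through the edge `x = 0` of the bottom is no pyramid -/
theorem wedge_x (t : ℝ) (ht : 1 ≤ t) (hQ : IsPyramid {x ∈ cube | t * x 0 ≤ x 2}) : False := by
  have ht0 : 0 < t := by linarith
  have hc : ∀ y ∈ (S8 : Set E3), y ∈ cube := fun y hy => subset_convexHull ℝ _ hy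
  have hbox : {x ∈ cube | t * x 0 ≤ x 2} ⊆ box := fun x hx => cube_sub_box hx.1
  have k1 : V 0 0 0 ∈ {x ∈ cube | t * x 0 ≤ x 2} := ⟨hc _ (by rw [mem_S8]; tauto), by simp⟩
  have k2 : V 0 1 0 ∈ {x ∈ cube | t * x 0 ≤ x 2} := ⟨hc _ (by rw [mem_S8]; tauto), by simp⟩
  have k3 : V 0 0 1 ∈ {x ∈ cube | t * x 0 ≤ x 2} := ⟨hc _ (by rw [mem_S8]; tauto), by simp⟩
  have k4 : V 0 1 1 ∈ {x ∈ cube | t * x 0 ≤ x 2} := ⟨hc _ (by rw [mem_S8]; tauto), by simp⟩
  have ht1 : 1 / t ≤ 1 := by rw [div_le_one ht0]; exact ht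
  have ht2 : 0 ≤ 1 / t := by positivity
  have m1 : V (1 / t) 0 1 ∈ {x ∈ cube | t * x 0 ≤ x 2} := by
    refine ⟨?_, by simp [ht0.ne']⟩
    have e : V (1 / t) 0 1 = (1 - 1 / t) • V 0 0 1 + (1 / t) • V 1 0 1 := by
      apply ext3 <;> simp
    rw [e]
    exact convex_convexHull ℝ _ (hc _ (by rw [mem_S8]; tauto)) (hc _ (by rw [mem_S8]; tauto))
      (by linarith) ht2 (by ring)
  have m2 : V (1 / t) 1 1 ∈ {x ∈ cube | t * x 0 ≤ x 2} := by
    refine ⟨?_, by simp [ht0.ne']⟩
    have e : V (1 / t) 1 1 = (1 - 1 / t) • V 0 1 1 + (1 / t) • V 1 1 1 := by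
      apply ext3 <;> simp
    rw [e]
    exact convex_convexHull ℝ _ (hc _ (by rw [mem_S8]; tauto)) (hc _ (by rw [mem_S8]; tauto))
      (by linarith) ht2 (by ring)
  have hmax : ∀ x ∈ {x ∈ cube | t * x 0 ≤ x 2}, x 0 ≤ 1 / t := by
    rintro x ⟨hx, hx2⟩
    have := (cube_sub_box hx).2.2.2
    rw [le_div_iff₀ ht0]
    linarith
  have x1 := corner_extreme hbox k1 (by intro i; fin_cases i <;> simp [V])
  have x2 := corner_extreme hbox k2 (by intro i; fin_cases i <;> simp [V])
  have x3 := corner_extreme hbox k3 (by intro i; fin_cases i <;> simp [V])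
  have x4 := corner_extreme hbox k4 (by intro i; fin_cases i <;> simp [V])
  obtain ⟨B, a, hB, ha, hQe⟩ := hQ
  rw [hQe] at x1 x2 x3 x4 m1 m2 hmax
  have y1 := extremePoints_convexHull_subset x1
  have y2 := extremePoints_convexHull_subset x2
  have y3 := extremePoints_convexHull_subset x3
  have y4 := extremePoints_convexHull_subset x4
  rw [mem_insert_iff] at y1 y2 y3 y4
  have n12 : V 0 0 0 ≠ V 0 1 0 := fun h => by simpa using congrArg (fun v : E3 => v 1) h
  have n13 : V 0 0 0 ≠ V 0 0 1 := fun h => by simpa using congrArg (fun v : E3 => v 2) h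
  have n14 : V 0 0 0 ≠ V 0 1 1 := fun h => by simpa using congrArg (fun v : E3 => v 2) h
  have n23 : V 0 1 0 ≠ V 0 0 1 := fun h => by simpa using congrArg (fun v : E3 => v 2) h
  have n24 : V 0 1 0 ≠ V 0 1 1 := fun h => by simpa using congrArg (fun v : E3 => v 2) h
  have n34 : V 0 0 1 ≠ V 0 1 1 := fun h => by simpa using congrArg (fun v : E3 => v 1) h
  have e1 : V 0 1 0 ∈ vectorSpan ℝ (B : Set E3) := by
    have h : (V 0 0 0 ∈ (B : Set E3) ∧ V 0 1 0 ∈ (B : Set E3)) ∨
        (V 0 0 1 ∈ (B : Set E3) ∧ V 0 1 1 ∈ (B : Set E3)) := by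
      rcases y1 with y1 | y1
      · right
        exact ⟨y3.resolve_left (fun h => n13 (y1.trans h.symm)),
          y4.resolve_left (fun h => n14 (y1.trans h.symm))⟩
      · rcases y2 with y2 | y2
        · right
          exact ⟨y3.resolve_left (fun h => n23 (y2.trans h.symm)),
            y4.resolve_left (fun h => n24 (y2.trans h.symm))⟩
        · left; exact ⟨y1, y2⟩
    rcases h with ⟨h1, h2⟩ | ⟨h1, h2⟩
    · have := vsub_mem_vectorSpan ℝ h2 h1
      have e : V 0 1 0 -ᵥ V 0 0 0 = V 0 1 0 := by apply ext3 <;> simp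
      rwa [e] at this
    · have := vsub_mem_vectorSpan ℝ h2 h1
      have e : V 0 1 1 -ᵥ V 0 0 1 = V 0 1 0 := by apply ext3 <;> simp
      rwa [e] at this
  have e2 : V 0 0 1 ∈ vectorSpan ℝ (B : Set E3) := by
    have h : (V 0 0 0 ∈ (B : Set E3) ∧ V 0 0 1 ∈ (B : Set E3)) ∨
        (V 0 1 0 ∈ (B : Set E3) ∧ V 0 1 1 ∈ (B : Set E3)) := by
      rcases y1 with y1 | y1
      · right
        exact ⟨y2.resolve_left (fun h => n12 (y1.trans h.symm)),
          y4.resolve_left (fun h => n14 (y1.trans h.symm))⟩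
      · rcases y3 with y3 | y3
        · right
          exact ⟨y2.resolve_left (fun h => n23 (h.trans y3.symm)),
            y4.resolve_left (fun h => n34 (y3.trans h.symm))⟩
        · left; exact ⟨y1, y3⟩
    rcases h with ⟨h1, h2⟩ | ⟨h1, h2⟩
    · have := vsub_mem_vectorSpan ℝ h2 h1
      have e : V 0 0 1 -ᵥ V 0 0 0 = V 0 0 1 := by apply ext3 <;> simp
      rwa [e] at this
    · have := vsub_mem_vectorSpan ℝ h2 h1
      have e : V 0 1 1 -ᵥ V 0 1 0 = V 0 0 1 := by apply ext3 <;> simp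
      rwa [e] at this
  -- a point of B in the plane x = 0
  obtain ⟨k, hk, hk0⟩ : ∃ k ∈ (B : Set E3), k 0 = 0 := by
    rcases y1 with y1 | y1
    · exact ⟨_, y2.resolve_left (fun h => n12 (y1.trans h.symm)), by simp⟩
    · exact ⟨_, y1, by simp⟩
  have hB0 : ∀ b ∈ (B : Set E3), b 0 = 0 := by
    intro b hb
    by_contra hb0
    have h1 := vsub_mem_vectorSpan ℝ hb hk
    rw [vsub_eq_sub] at h1
    have hd : (b - k) 0 ≠ 0 := by
      simp only [PiLp.sub_apply, hk0, sub_zero]; exact hb0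
    have e0 : V 1 0 0 ∈ vectorSpan ℝ (B : Set E3) := by
      have e : V 1 0 0 = ((b - k) 0)⁻¹ • ((b - k) - (b - k) 1 • V 0 1 0 - (b - k) 2 • V 0 0 1) := by
        apply ext3
        · simp only [V0, PiLp.smul_apply, PiLp.sub_apply, smul_eq_mul, mul_zero, sub_zero] at hd ⊢
          exact (inv_mul_cancel₀ hd).symm
        · simp
        · simp
      rw [e]
      exact Submodule.smul_mem _ _ (Submodule.sub_mem _ (Submodule.sub_mem _ h1
        (Submodule.smul_mem _ _ e1)) (Submodule.smul_mem _ _ e2))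
    have htop := top_of_units _ e0 e1 e2
    rw [htop, finrank_top] at hB
    simp at hB
  have hhull0 : ∀ y ∈ convexHull ℝ (B : Set E3), y 0 = 0 := by
    intro y hy
    have hconv : Convex ℝ {x : E3 | x 0 = 0} := by
      intro x hx y hy a b _ _ _
      have hx' : x 0 = 0 := hx
      have hy' : y 0 = 0 := hy
      change (a • x + b • y) 0 = 0
      simp [hx', hy']
    exact convexHull_min hB0 hconv hy
  have haQ : a 0 ≤ 1 / t := hmax a (subset_convexHull ℝ _ (mem_insert _ _))
  have htpos : 0 < 1 / t := by positivity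
  have key : ∀ x ∈ convexHull ℝ (insert a (B : Set E3)), x 0 = 1 / t → x = a := by
    intro x hx hx0
    rw [convexHull_insert ⟨k, hk⟩, mem_convexJoin] at hx
    obtain ⟨a', ha', y, hy, u, v, hu, hv, huv, rfl⟩ := hx
    rw [mem_singleton_iff] at ha'
    subst ha'
    have hy0 := hhull0 y hy
    simp only [PiLp.add_apply, PiLp.smul_apply, smul_eq_mul, hy0, mul_zero, add_zero] at hx0
    have hu1 : u = 1 := by
      have h1 : u ≤ 1 := by linarith
      by_contra hne
      have h2 : u < 1 := lt_of_le_of_ne h1 hne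
      nlinarith
    have hv0 : v = 0 := by linarith
    rw [hu1, hv0, one_smul, zero_smul, add_zero]
  have h1 := key _ m1 (by simp)
  have h2 := key _ m2 (by simp)
  have h3 := congrArg (fun v : E3 => v 1) (h1.trans h2.symm)
  simp at h3

/-- the part of the cube beyond a plane through the edge `y = 0` of the bottom is no pyramid -/
theorem wedge_y (t : ℝ) (ht : 1 ≤ t) (hQ : IsPyramid {x ∈ cube | t * x 1 ≤ x 2}) : False := by
  have ht0 : 0 < t := by linarith
  have hc : ∀ y ∈ (S8 : Set E3), y ∈ cube := fun y hy => subset_convexHull ℝ _ hy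
  have hbox : {x ∈ cube | t * x 1 ≤ x 2} ⊆ box := fun x hx => cube_sub_box hx.1
  have k1 : V 0 0 0 ∈ {x ∈ cube | t * x 1 ≤ x 2} := ⟨hc _ (by rw [mem_S8]; tauto), by simp⟩
  have k2 : V 1 0 0 ∈ {x ∈ cube | t * x 1 ≤ x 2} := ⟨hc _ (by rw [mem_S8]; tauto), by simp⟩
  have k3 : V 0 0 1 ∈ {x ∈ cube | t * x 1 ≤ x 2} := ⟨hc _ (by rw [mem_S8]; tauto), by simp⟩
  have k4 : V 1 0 1 ∈ {x ∈ cube | t * x 1 ≤ x 2} := ⟨hc _ (by rw [mem_S8]; tauto), by simp⟩
  have ht1 : 1 / t ≤ 1 := by rw [div_le_one ht0]; exact ht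
  have ht2 : 0 ≤ 1 / t := by positivity
  have m1 : V 0 (1 / t) 1 ∈ {x ∈ cube | t * x 1 ≤ x 2} := by
    refine ⟨?_, by simp [ht0.ne']⟩
    have e : V 0 (1 / t) 1 = (1 - 1 / t) • V 0 0 1 + (1 / t) • V 0 1 1 := by
      apply ext3 <;> simp
    rw [e]
    exact convex_convexHull ℝ _ (hc _ (by rw [mem_S8]; tauto)) (hc _ (by rw [mem_S8]; tauto))
      (by linarith) ht2 (by ring)
  have m2 : V 1 (1 / t) 1 ∈ {x ∈ cube | t * x 1 ≤ x 2} := by
    refine ⟨?_, by simp [ht0.ne']⟩
    have e : V 1 (1 / t) 1 = (1 - 1 / t) • V 1 0 1 + (1 / t) • V 1 1 1 := by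
      apply ext3 <;> simp
    rw [e]
    exact convex_convexHull ℝ _ (hc _ (by rw [mem_S8]; tauto)) (hc _ (by rw [mem_S8]; tauto))
      (by linarith) ht2 (by ring)
  have hmax : ∀ x ∈ {x ∈ cube | t * x 1 ≤ x 2}, x 1 ≤ 1 / t := by
    rintro x ⟨hx, hx2⟩
    have := (cube_sub_box hx).2.2.2
    rw [le_div_iff₀ ht0]
    linarith
  have x1 := corner_extreme hbox k1 (by intro i; fin_cases i <;> simp [V])
  have x2 := corner_extreme hbox k2 (by intro i; fin_cases i <;> simp [V])
  have x3 := corner_extreme hbox k3 (by intro i; fin_cases i <;> simp [V])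
  have x4 := corner_extreme hbox k4 (by intro i; fin_cases i <;> simp [V])
  obtain ⟨B, a, hB, ha, hQe⟩ := hQ
  rw [hQe] at x1 x2 x3 x4 m1 m2 hmax
  have y1 := extremePoints_convexHull_subset x1
  have y2 := extremePoints_convexHull_subset x2
  have y3 := extremePoints_convexHull_subset x3
  have y4 := extremePoints_convexHull_subset x4
  rw [mem_insert_iff] at y1 y2 y3 y4
  have n12 : V 0 0 0 ≠ V 1 0 0 := fun h => by simpa using congrArg (fun v : E3 => v 0) h
  have n13 : V 0 0 0 ≠ V 0 0 1 := fun h => by simpa using congrArg (fun v : E3 => v 2) h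
  have n14 : V 0 0 0 ≠ V 1 0 1 := fun h => by simpa using congrArg (fun v : E3 => v 2) h
  have n23 : V 1 0 0 ≠ V 0 0 1 := fun h => by simpa using congrArg (fun v : E3 => v 2) h
  have n24 : V 1 0 0 ≠ V 1 0 1 := fun h => by simpa using congrArg (fun v : E3 => v 2) h
  have n34 : V 0 0 1 ≠ V 1 0 1 := fun h => by simpa using congrArg (fun v : E3 => v 0) h
  have e1 : V 1 0 0 ∈ vectorSpan ℝ (B : Set E3) := by
    have h : (V 0 0 0 ∈ (B : Set E3) ∧ V 1 0 0 ∈ (B : Set E3)) ∨
        (V 0 0 1 ∈ (B : Set E3) ∧ V 1 0 1 ∈ (B : Set E3)) := by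
      rcases y1 with y1 | y1
      · right
        exact ⟨y3.resolve_left (fun h => n13 (y1.trans h.symm)),
          y4.resolve_left (fun h => n14 (y1.trans h.symm))⟩
      · rcases y2 with y2 | y2
        · right
          exact ⟨y3.resolve_left (fun h => n23 (y2.trans h.symm)),
            y4.resolve_left (fun h => n24 (y2.trans h.symm))⟩
        · left; exact ⟨y1, y2⟩
    rcases h with ⟨h1, h2⟩ | ⟨h1, h2⟩
    · have := vsub_mem_vectorSpan ℝ h2 h1
      have e : V 1 0 0 -ᵥ V 0 0 0 = V 1 0 0 := by apply ext3 <;> simp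
      rwa [e] at this
    · have := vsub_mem_vectorSpan ℝ h2 h1
      have e : V 1 0 1 -ᵥ V 0 0 1 = V 1 0 0 := by apply ext3 <;> simp
      rwa [e] at this
  have e2 : V 0 0 1 ∈ vectorSpan ℝ (B : Set E3) := by
    have h : (V 0 0 0 ∈ (B : Set E3) ∧ V 0 0 1 ∈ (B : Set E3)) ∨
        (V 1 0 0 ∈ (B : Set E3) ∧ V 1 0 1 ∈ (B : Set E3)) := by
      rcases y1 with y1 | y1
      · right
        exact ⟨y2.resolve_left (fun h => n12 (y1.trans h.symm)),
          y4.resolve_left (fun h => n14 (y1.trans h.symm))⟩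
      · rcases y3 with y3 | y3
        · right
          exact ⟨y2.resolve_left (fun h => n23 (h.trans y3.symm)),
            y4.resolve_left (fun h => n34 (y3.trans h.symm))⟩
        · left; exact ⟨y1, y3⟩
    rcases h with ⟨h1, h2⟩ | ⟨h1, h2⟩
    · have := vsub_mem_vectorSpan ℝ h2 h1
      have e : V 0 0 1 -ᵥ V 0 0 0 = V 0 0 1 := by apply ext3 <;> simp
      rwa [e] at this
    · have := vsub_mem_vectorSpan ℝ h2 h1
      have e : V 1 0 1 -ᵥ V 1 0 0 = V 0 0 1 := by apply ext3 <;> simp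
      rwa [e] at this
  -- a point of B in the plane y = 0
  obtain ⟨k, hk, hk0⟩ : ∃ k ∈ (B : Set E3), k 1 = 0 := by
    rcases y1 with y1 | y1
    · exact ⟨_, y2.resolve_left (fun h => n12 (y1.trans h.symm)), by simp⟩
    · exact ⟨_, y1, by simp⟩
  have hB0 : ∀ b ∈ (B : Set E3), b 1 = 0 := by
    intro b hb
    by_contra hb0
    have h1 := vsub_mem_vectorSpan ℝ hb hk
    rw [vsub_eq_sub] at h1
    have hd : (b - k) 1 ≠ 0 := by
      simp only [PiLp.sub_apply, hk0, sub_zero]; exact hb0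
    have e0 : V 0 1 0 ∈ vectorSpan ℝ (B : Set E3) := by
      have e : V 0 1 0 = ((b - k) 1)⁻¹ • ((b - k) - (b - k) 0 • V 1 0 0 - (b - k) 2 • V 0 0 1) := by
        apply ext3
        · simp
        · simp only [V1, PiLp.smul_apply, PiLp.sub_apply, smul_eq_mul, mul_zero, sub_zero] at hd ⊢
          exact (inv_mul_cancel₀ hd).symm
        · simp
      rw [e]
      exact Submodule.smul_mem _ _ (Submodule.sub_mem _ (Submodule.sub_mem _ h1
        (Submodule.smul_mem _ _ e1)) (Submodule.smul_mem _ _ e2))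
    have htop := top_of_units _ e1 e0 e2
    rw [htop, finrank_top] at hB
    simp at hB
  have hhull0 : ∀ y ∈ convexHull ℝ (B : Set E3), y 1 = 0 := by
    intro y hy
    have hconv : Convex ℝ {x : E3 | x 1 = 0} := by
      intro x hx y hy a b _ _ _
      have hx' : x 1 = 0 := hx
      have hy' : y 1 = 0 := hy
      change (a • x + b • y) 1 = 0
      simp [hx', hy']
    exact convexHull_min hB0 hconv hy
  have haQ : a 1 ≤ 1 / t := hmax a (subset_convexHull ℝ _ (mem_insert _ _))
  have htpos : 0 < 1 / t := by positivity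
  have key : ∀ x ∈ convexHull ℝ (insert a (B : Set E3)), x 1 = 1 / t → x = a := by
    intro x hx hx0
    rw [convexHull_insert ⟨k, hk⟩, mem_convexJoin] at hx
    obtain ⟨a', ha', y, hy, u, v, hu, hv, huv, rfl⟩ := hx
    rw [mem_singleton_iff] at ha'
    subst ha'
    have hy0 := hhull0 y hy
    simp only [PiLp.add_apply, PiLp.smul_apply, smul_eq_mul, hy0, mul_zero, add_zero] at hx0
    have hu1 : u = 1 := by
      have h1 : u ≤ 1 := by linarith
      by_contra hne
      have h2 : u < 1 := lt_of_le_of_ne h1 hne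
      nlinarith
    have hv0 : v = 0 := by linarith
    rw [hu1, hv0, one_smul, zero_smul, add_zero]
  have h1 := key _ m1 (by simp)
  have h2 := key _ m2 (by simp)
  have h3 := congrArg (fun v : E3 => v 0) (h1.trans h2.symm)
  simp at h3

/-- no admissible cut of the cube with respect to the pyramid -/
theorem no_cut_cube (P' : Set E3) : ¬ IsCut square pyramid cube P' := by
  rintro ⟨f, c, hf, ⟨v, w, ⟨hvw, hv, hw, -⟩, hfv, hfw⟩, hD, hQ, -⟩
  have hv' := extremePoints_convexHull_subset hv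
  have hw' := extremePoints_convexHull_subset hw
  rw [mem_S4] at hv' hw'
  have hp : ∀ y ∈ (S5 : Set E3), f y ≤ c := fun y hy => hD y (subset_convexHull ℝ _ hy)
  have p1 := hp (V 0 0 0) (by rw [mem_S5]; tauto)
  have p2 := hp (V 1 0 0) (by rw [mem_S5]; tauto)
  have p3 := hp (V 0 1 0) (by rw [mem_S5]; tauto)
  have p4 := hp (V 1 1 0) (by rw [mem_S5]; tauto)
  have p5 := hp (V 1 1 1) (by rw [mem_S5]; tauto)
  -- the flat case
  have flat : f (V 0 0 1) ≤ c → f (V 1 0 1) ≤ c → f (V 0 1 1) ≤ c → False := by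
    intro q1 q2 q3
    refine pyramid_not_flat hQ f hf c ?_
    rintro x ⟨hx, hxc⟩
    refine le_antisymm ?_ hxc
    have hconv : Convex ℝ {x : E3 | f x ≤ c} := by
      intro x hx y hy a b ha hb hab
      have hx' : f x ≤ c := hx
      have hy' : f y ≤ c := hy
      change f (a • x + b • y) ≤ c
      rw [map_add, map_smul, map_smul, smul_eq_mul, smul_eq_mul]
      have hb' : b = 1 - a := by linarith
      subst hb'
      nlinarith
    refine convexHull_min ?_ hconv hx
    intro y hy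
    rw [mem_S8] at hy
    rcases hy with rfl | rfl | rfl | rfl | rfl | rfl | rfl | rfl <;> assumption
  have c1 := f_V f 0 0 0
  have c2 := f_V f 1 1 0
  have c3 := f_V f 1 0 1
  have c4 := f_V f 0 1 1
  have c5 := f_V f 1 1 1
  -- the wedge over the edge x = 0
  have wx : c = 0 → f (V 0 1 0) = 0 → 0 < f (V 0 0 1) → False := by
    intro hc hb hg
    have ha : f (V 1 0 0) < 0 := by linarith
    have hset : {x ∈ cube | c ≤ f x} =
        {x ∈ cube | (- f (V 1 0 0) / f (V 0 0 1)) * x 0 ≤ x 2} := by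
      ext x
      simp only [mem_setOf_eq, and_congr_right_iff]
      intro _
      have hfx : f x = x 0 * f (V 1 0 0) + x 1 * f (V 0 1 0) + x 2 * f (V 0 0 1) := by
        conv_lhs => rw [eq_V x, f_V]
      rw [hfx, hc, hb, div_mul_eq_mul_div, div_le_iff₀ hg]
      constructor <;> intro h <;> nlinarith
    rw [hset] at hQ
    refine wedge_x _ ?_ hQ
    rw [le_div_iff₀ hg]
    linarith
  have wy : c = 0 → f (V 1 0 0) = 0 → 0 < f (V 0 0 1) → False := by
    intro hc hb hg
    have ha : f (V 0 1 0) < 0 := by linarith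
    have hset : {x ∈ cube | c ≤ f x} =
        {x ∈ cube | (- f (V 0 1 0) / f (V 0 0 1)) * x 1 ≤ x 2} := by
      ext x
      simp only [mem_setOf_eq, and_congr_right_iff]
      intro _
      have hfx : f x = x 0 * f (V 1 0 0) + x 1 * f (V 0 1 0) + x 2 * f (V 0 0 1) := by
        conv_lhs => rw [eq_V x, f_V]
      rw [hfx, hc, hb, div_mul_eq_mul_div, div_le_iff₀ hg]
      constructor <;> intro h <;> nlinarith
    rw [hset] at hQ
    refine wedge_y _ ?_ hQ
    rw [le_div_iff₀ hg]
    linarith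
  by_cases hg : 0 < f (V 0 0 1)
  · rcases hv' with rfl | rfl | rfl | rfl <;> rcases hw' with rfl | rfl | rfl | rfl <;>
      first
        | exact hvw rfl
        | exact wx (by linarith) (by linarith) hg
        | exact wy (by linarith) (by linarith) hg
        | exact flat (by linarith) (by linarith) (by linarith)
  · push Not at hg
    exact flat (by linarith) (by linarith) (by linarith)

/-! ### the tetrahedron -/

/-- vertices of the tetrahedron -/
noncomputable def T4 : Finset E3 := by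
  classical exact {V 0 0 0, V 1 0 0, V 0 1 0, V 0 0 1}

/-- vertices of its base -/
noncomputable def T3 : Finset E3 := by
  classical exact {V 0 0 0, V 1 0 0, V 0 1 0}

/-- vertices of the g-dome -/
noncomputable def T5 : Finset E3 := by
  classical exact {V 0 0 0, V 1 0 0, V 0 1 0, V (1 / 2) 0 (1 / 2), V 0 (1 / 2) (1 / 2)}

/-- A tetrahedron. -/
noncomputable def tetra : Set E3 := convexHull ℝ (T4 : Set E3)

/-- Its base. -/
noncomputable def triangle : Set E3 := convexHull ℝ (T3 : Set E3)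

/-- The tetrahedron with a cap at the top cut off, by a plane through the vertex `(0,0,0)` and the
midpoints of two edges. -/
noncomputable def capped : Set E3 := convexHull ℝ (T5 : Set E3)

theorem mem_T3 (x : E3) : x ∈ (T3 : Set E3) ↔ x = V 0 0 0 ∨ x = V 1 0 0 ∨ x = V 0 1 0 := by
  simp [T3]

theorem mem_T4 (x : E3) : x ∈ (T4 : Set E3) ↔
    x = V 0 0 0 ∨ x = V 1 0 0 ∨ x = V 0 1 0 ∨ x = V 0 0 1 := by
  simp [T4]

theorem mem_T5 (x : E3) : x ∈ (T5 : Set E3) ↔
    x = V 0 0 0 ∨ x = V 1 0 0 ∨ x = V 0 1 0 ∨ x = V (1 / 2) 0 (1 / 2) ∨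
      x = V 0 (1 / 2) (1 / 2) := by
  simp [T5]

/-- the simplex in coordinates -/
def simp3 : Set E3 := {x | 0 ≤ x 0 ∧ 0 ≤ x 1 ∧ 0 ≤ x 2 ∧ x 0 + x 1 + x 2 ≤ 1}

theorem simp3_convex : Convex ℝ simp3 := by
  rintro x ⟨x1, x2, x3, x4⟩ y ⟨y1, y2, y3, y4⟩ a b ha hb hab
  have hb' : b = 1 - a := by linarith
  subst hb'
  refine ⟨?_, ?_, ?_, ?_⟩ <;>
    simp only [PiLp.add_apply, PiLp.smul_apply, smul_eq_mul] <;> nlinarith

theorem tetra_sub : tetra ⊆ simp3 := by
  refine convexHull_min ?_ simp3_convex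
  intro x hx
  rw [mem_T4] at hx
  rcases hx with rfl | rfl | rfl | rfl <;> simp [simp3]

theorem triangle_z (x : E3) (hx : x ∈ triangle) : x 2 = 0 := by
  have hconv : Convex ℝ {x : E3 | x 2 = 0} := by
    intro x hx y hy a b _ _ _
    have hx' : x 2 = 0 := hx
    have hy' : y 2 = 0 := hy
    change (a • x + b • y) 2 = 0
    simp [hx', hy']
  have : triangle ⊆ {x : E3 | x 2 = 0} := by
    refine convexHull_min ?_ hconv
    intro y hy
    rw [mem_T3] at hy
    rcases hy with rfl | rfl | rfl <;> simp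
  exact this hx

theorem triangle_of_simp3 (x : E3) (hx : x ∈ simp3) (hz : x 2 = 0) : x ∈ triangle := by
  obtain ⟨x1, x2, x3, x4⟩ := hx
  have h : ∀ y ∈ (T3 : Set E3), y ∈ triangle := fun y hy => subset_convexHull ℝ _ hy
  have e : x = (1 - x 0 - x 1) • V 0 0 0 + x 0 • V 1 0 0 + x 1 • V 0 1 0 := by
    apply ext3 <;> simp [hz]
  rw [e]
  have hc : Convex ℝ triangle := convex_convexHull ℝ _
  exact hc.sum_mem (t := Finset.univ) (w := ![1 - x 0 - x 1, x 0, x 1])
      (z := ![V 0 0 0, V 1 0 0, V 0 1 0])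
      (by intro i _; fin_cases i <;> simp <;> linarith)
      (by simp [Fin.sum_univ_three]; ring)
      (by
        intro i _
        apply h
        rw [mem_T3]
        fin_cases i <;> simp)
      |> (by simpa [Fin.sum_univ_three] using ·)

theorem capped_sub_tetra : capped ⊆ tetra := by
  refine convexHull_min ?_ (convex_convexHull ℝ _)
  have h : ∀ y ∈ (T4 : Set E3), y ∈ tetra := fun y hy => subset_convexHull ℝ _ hy
  intro x hx
  rw [mem_T5] at hx
  rcases hx with rfl | rfl | rfl | rfl | rfl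
  · exact h _ (by rw [mem_T4]; tauto)
  · exact h _ (by rw [mem_T4]; tauto)
  · exact h _ (by rw [mem_T4]; tauto)
  · have e : V (1 / 2) 0 (1 / 2) = (1 / 2 : ℝ) • V 1 0 0 + (1 / 2 : ℝ) • V 0 0 1 := by
      apply ext3 <;> simp
    rw [e]
    exact convex_convexHull ℝ _ (h _ (by rw [mem_T4]; tauto)) (h _ (by rw [mem_T4]; tauto))
      (by norm_num) (by norm_num) (by norm_num)
  · have e : V 0 (1 / 2) (1 / 2) = (1 / 2 : ℝ) • V 0 1 0 + (1 / 2 : ℝ) • V 0 0 1 := by
      apply ext3 <;> simp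
    rw [e]
    exact convex_convexHull ℝ _ (h _ (by rw [mem_T4]; tauto)) (h _ (by rw [mem_T4]; tauto))
      (by norm_num) (by norm_num) (by norm_num)

theorem triangle_sub_capped : triangle ⊆ capped := by
  apply convexHull_mono
  intro x hx
  rw [mem_T3] at hx
  rw [mem_T5]
  tauto

theorem tetra_poly : IsPolyhedron tetra := by
  refine ⟨⟨T4, rfl⟩, interior_nonempty _ (V 0 0 1) ?_ ?_ ?_ ?_ (by simp)⟩
  all_goals rw [mem_T4]; tauto

theorem capped_poly : IsPolyhedron capped := by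
  refine ⟨⟨T5, rfl⟩, interior_nonempty _ (V (1 / 2) 0 (1 / 2)) ?_ ?_ ?_ ?_ (by simp)⟩
  all_goals rw [mem_T5]; tauto

theorem facet_of_between' (K : Set E3) (h1 : triangle ⊆ K) (h2 : K ⊆ simp3) :
    IsFacet K triangle := by
  refine base_facet K triangle h1 (fun x hx => (h2 hx).2.2.1) (fun x hx hz =>
    triangle_of_simp3 x (h2 hx) hz) triangle_z ?_ ?_ ?_
  all_goals
    apply subset_convexHull
    rw [mem_T3]
    tauto

theorem capped_gdome : IsGDome capped triangle := by
  have hfac := facet_of_between' _ triangle_sub_capped (capped_sub_tetra.trans tetra_sub)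
  refine ⟨capped_poly, hfac, ?_⟩
  intro F hF _
  apply common_vertex capped_poly hF hfac
  have hsub := face_subset T5 F hF.1
  have htr : ∀ y ∈ (T3 : Set E3), y ∈ triangle := fun y hy => subset_convexHull ℝ _ hy
  by_contra hcon
  rw [not_nonempty_iff_eq_empty] at hcon
  refine not_two (p := V (1 / 2) 0 (1 / 2)) (q := V 0 (1 / 2) (1 / 2)) hF.2 ?_ hsub
  rintro y ⟨hy, hyF⟩
  have hy' : y ∈ (T5 : Set E3) := hy
  rw [mem_T5] at hy'
  by_cases h3 : y ∈ (T3 : Set E3)
  · have : y ∈ F ∩ triangle := ⟨hyF, htr y h3⟩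
    rw [hcon] at this
    exact absurd this (notMem_empty _)
  · rw [mem_T3] at h3
    rw [mem_insert_iff, mem_singleton_iff]
    tauto

theorem no_cut_tetra (P' : Set E3) : ¬ IsCut triangle capped tetra P' := by
  rintro ⟨f, c, hf, ⟨v, w, ⟨hvw, hv, hw, -⟩, hfv, hfw⟩, hD, hQ, -⟩
  have hv' := extremePoints_convexHull_subset hv
  have hw' := extremePoints_convexHull_subset hw
  rw [mem_T3] at hv' hw'
  have hp : ∀ y ∈ (T5 : Set E3), f y ≤ c := fun y hy => hD y (subset_convexHull ℝ _ hy)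
  have p1 := hp (V 0 0 0) (by rw [mem_T5]; tauto)
  have p2 := hp (V 1 0 0) (by rw [mem_T5]; tauto)
  have p3 := hp (V 0 1 0) (by rw [mem_T5]; tauto)
  have p4 := hp (V (1 / 2) 0 (1 / 2)) (by rw [mem_T5]; tauto)
  have p5 := hp (V 0 (1 / 2) (1 / 2)) (by rw [mem_T5]; tauto)
  have c4 := f_V f (1 / 2) 0 (1 / 2)
  have c5 := f_V f 0 (1 / 2) (1 / 2)
  have q : f (V 0 0 1) ≤ c := by
    rcases hv' with rfl | rfl | rfl <;> rcases hw' with rfl | rfl | rfl <;>
      first
        | exact absurd rfl hvw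
        | linarith
  refine pyramid_not_flat hQ f hf c ?_
  rintro x ⟨hx, hxc⟩
  refine le_antisymm ?_ hxc
  have hconv : Convex ℝ {x : E3 | f x ≤ c} := by
    intro x hx y hy a b ha hb hab
    have hx' : f x ≤ c := hx
    have hy' : f y ≤ c := hy
    change f (a • x + b • y) ≤ c
    rw [map_add, map_smul, map_smul, smul_eq_mul, smul_eq_mul]
    have hb' : b = 1 - a := by linarith
    subst hb'
    nlinarith
  refine convexHull_min ?_ hconv hx
  intro y hy
  rw [mem_T4] at hy
  rcases hy with rfl | rfl | rfl | rfl <;> assumption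

theorem cube_ne : cube ≠ pyramid := by
  intro h
  have h1 : V 0 0 1 ∈ pyramid := by
    rw [← h]
    exact subset_convexHull ℝ _ (by rw [mem_S8]; tauto)
  have hconv : Convex ℝ {x : E3 | x 2 ≤ x 0} := by
    intro x hx y hy a b ha hb hab
    have hx' : x 2 ≤ x 0 := hx
    have hy' : y 2 ≤ y 0 := hy
    change (a • x + b • y) 2 ≤ (a • x + b • y) 0
    simp only [PiLp.add_apply, PiLp.smul_apply, smul_eq_mul]
    nlinarith
  have h2 : pyramid ⊆ {x : E3 | x 2 ≤ x 0} := by
    refine convexHull_min ?_ hconv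
    intro y hy
    rw [mem_S5] at hy
    rcases hy with rfl | rfl | rfl | rfl | rfl <;> simp
  have h3 := h2 h1
  simp at h3
  linarith

theorem tetra_ne : tetra ≠ capped := by
  intro h
  have h1 : V 0 0 1 ∈ capped := by
    rw [← h]
    exact subset_convexHull ℝ _ (by rw [mem_T4]; tauto)
  have hconv : Convex ℝ {x : E3 | x 2 ≤ x 0 + x 1} := by
    intro x hx y hy a b ha hb hab
    have hx' : x 2 ≤ x 0 + x 1 := hx
    have hy' : y 2 ≤ y 0 + y 1 := hy
    change (a • x + b • y) 2 ≤ (a • x + b • y) 0 + (a • x + b • y) 1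
    simp only [PiLp.add_apply, PiLp.smul_apply, smul_eq_mul]
    nlinarith
  have h2 : capped ⊆ {x : E3 | x 2 ≤ x 0 + x 1} := by
    refine convexHull_min ?_ hconv
    intro y hy
    rw [mem_T5] at hy
    rcases hy with rfl | rfl | rfl | rfl | rfl <;> simp
  have h3 := h2 h1
  simp at h3
  linarith

/-- **The answer to Q1 is negative**, even for domes: for the unit cube, its bottom face `X`, and
the pyramid with base `X` and apex `(1,1,1)` (a dome, so a g-dome) there is no admissible cut at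
all. The same is true for a tetrahedron, a face `X` of it and the g-dome obtained by cutting off a
cap. In particular not every g-dome can be reached by a finite sequence of admissible cuts. -/
theorem result :
    (IsPolyhedron cube ∧ IsFacet cube square ∧ IsDome pyramid square ∧ IsGDome pyramid square ∧
      pyramid ⊆ cube ∧ cube ≠ pyramid ∧ ∀ P', ¬ IsCut square pyramid cube P') ∧
    (IsPolyhedron tetra ∧ IsFacet tetra triangle ∧ IsGDome capped triangle ∧
      capped ⊆ tetra ∧ tetra ≠ capped ∧ ∀ P', ¬ IsCut triangle capped tetra P') ∧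
    ¬ (∀ P X D : Set E3, IsPolyhedron P → IsFacet P X → IsGDome D X → D ⊆ P →
      ReflTransGen (IsCut X D) P D) := by
  have hc := facet_of_between _ (square_sub_pyramid.trans pyramid_sub_cube) cube_sub_box
  have ht := facet_of_between' _ (triangle_sub_capped.trans capped_sub_tetra) tetra_sub
  refine ⟨⟨cube_poly, hc, pyramid_dome, pyramid_gdome, pyramid_sub_cube, cube_ne, no_cut_cube⟩,
    ⟨tetra_poly, ht, capped_gdome, capped_sub_tetra, tetra_ne, no_cut_tetra⟩, ?_⟩
  intro h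
  have h1 := h cube square pyramid cube_poly hc pyramid_gdome pyramid_sub_cube
  rcases ReflTransGen.cases_head h1 with h2 | ⟨P', h2, -⟩
  · exact cube_ne h2
  · exact no_cut_cube P' h2

end Pool.Agent.Results.MP_3a21c3_co.NoCuts
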